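import Pool.Agent.Q110.OC.Main

/-!
# Jaeger's oriented cycle double cover conjecture for Cayley graphs and all graphs with a
vertex-transitive group that acts semiregularly on the arcs

Proof. Graphs with all degrees even are trivial (each cycle of a decomposition in both directions),
so one may remove even subgraphs, and by transitivity it is enough to cover one invariant spanning
subgraph of odd degree.

If the vertex stabilisers are nontrivial, a parity argument gives an arc `(u, v)` which is reversed
by some element `t` of the group; the orbit graph of this arc has odd degree. Choose `h` fixing `v`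
with `h u ≠ u` and put `g = h t`. The consistent cycles `σ (u, g u, g ^ 2 u, ...)` traverse every arc
of the orbit graph exactly once.

If the group is regular, the graph is a Cayley graph with an odd number of involutions in the
connection set. Three involutions `a, b, c` give a cubic graph with a 3-edge-colouring, for which the
statement is in the starting files. For one involution `a` and a generator `s` of order at least three
which commute one finds again a 3-edge-colouring (from a 3-colouring of the cosets of `⟨a⟩`); if they
do not commute, then `s` is not in `⟨s⁻¹ a⟩` and the closed walks with the labels `s, s, s, ...` and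
`s⁻¹, a, s⁻¹, a, ...` never traverse an edge in both directions.
-/

set_option autoImplicit false

namespace Pool.Agent.Results.MP_781dd6_co.ArcSemiregularGroups

open scoped Classical in
/-- (1) Let `H` be a finite simple graph whose degrees are not `1`, and `A` a group of automorphisms
of `H` that is transitive on the vertices and in which only the identity fixes two adjacent vertices.
Let `G` be a simple graph on the same vertices that contains `H`, such that at every vertex the
degrees of `G` and `H` have the same parity (for example `G = H`). Then `G` has a list of directed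
cycles that together traverse every edge exactly once in each of its two directions.
(2) In particular this holds for every Cayley graph of a finite group whose connection set does not
consist of a single element. -/
theorem result :
    (∀ (V : Type) [Fintype V] (G H : SimpleGraph V) (A : Subgroup (Equiv.Perm V)), H ≤ G →
      (∀ σ ∈ A, ∀ u v, H.Adj u v → H.Adj (σ u) (σ v)) →
      (∀ u v, ∃ σ ∈ A, σ u = v) →
      (∀ σ ∈ A, ∀ u v, H.Adj u v → σ u = u → σ v = v → σ = 1) →
      (∀ v, Even ((G.neighborSet v).ncard + (H.neighborSet v).ncard)) →
      (∀ v, (H.neighborSet v).ncard ≠ 1) →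
      ∃ C : List (Σ v : V, G.Walk v v), (∀ c ∈ C, c.2.IsCycle) ∧
        ∀ u v, G.Adj u v → (C.map (fun c =>
          (c.2.darts.filter (fun d => decide (d.toProd = (u, v)))).length)).sum = 1) ∧
    (∀ (Γ : Type) [Group Γ] [Fintype Γ] (S : Set Γ) (G : SimpleGraph Γ),
      (∀ x y, G.Adj x y ↔ x⁻¹ * y ∈ S) → S.ncard ≠ 1 →
      ∃ C : List (Σ v : Γ, G.Walk v v), (∀ c ∈ C, c.2.IsCycle) ∧
        ∀ u v, G.Adj u v → (C.map (fun c =>
          (c.2.darts.filter (fun d => decide (d.toProd = (u, v)))).length)).sum = 1) := by
  have hdg : ∀ (V : Type) [Fintype V] (G : SimpleGraph V) (v : V),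
      Pool.Agent.Q110.OC.dg G.Adj v = (G.neighborSet v).ncard := by
    intro V _ G v
    unfold Pool.Agent.Q110.OC.dg
    rw [Pool.Agent.Q110.OC.sum_ind_card]
    rfl
  have main : ∀ (V : Type) [Fintype V] (G H : SimpleGraph V) (A : Subgroup (Equiv.Perm V)),
      H ≤ G → (∀ σ ∈ A, ∀ u v, H.Adj u v → H.Adj (σ u) (σ v)) →
      (∀ u v, ∃ σ ∈ A, σ u = v) →
      (∀ σ ∈ A, ∀ u v, H.Adj u v → σ u = u → σ v = v → σ = 1) →
      (∀ v, Even ((G.neighborSet v).ncard + (H.neighborSet v).ncard)) →
      (∀ v, (H.neighborSet v).ncard ≠ 1) →
      ∃ C : List (Σ v : V, G.Walk v v), (∀ c ∈ C, c.2.IsCycle) ∧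
        ∀ u v, G.Adj u v → (C.map (fun c =>
          (c.2.darts.filter (fun d => decide (d.toProd = (u, v)))).length)).sum = 1 := by
    intro V _ G H A hHG hA htr hsr hpar hne
    exact Pool.Agent.Q110.OC.main G H A hHG hA htr hsr
      (fun v => by rw [hdg, hdg]; exact hpar v) (fun v => by rw [hdg]; exact hne v)
  refine ⟨main, ?_⟩
  intro Γ _ _ S G hG hS
  have hdeg : ∀ v, (G.neighborSet v).ncard = S.ncard := by
    intro v
    have : G.neighborSet v = (fun t => v * t) '' S := by
      ext w
      rw [SimpleGraph.mem_neighborSet, hG, Set.mem_image]
      constructor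
      · intro h
        exact ⟨_, h, by rw [mul_inv_cancel_left]⟩
      · rintro ⟨t, ht, rfl⟩
        rw [inv_mul_cancel_left]
        exact ht
    rw [this, Set.ncard_image_of_injective _ (mul_right_injective v)]
  refine main Γ G G (MulAction.toPermHom Γ Γ).range le_rfl ?_ ?_ ?_ (fun v => ⟨_, rfl⟩)
    (fun v => by rw [hdeg]; exact hS)
  · rintro σ ⟨g, rfl⟩ u v huv
    rw [hG] at huv ⊢
    rw [MulAction.toPermHom_apply, MulAction.toPerm_apply, MulAction.toPerm_apply, smul_eq_mul,
      smul_eq_mul, mul_inv_rev, mul_assoc, inv_mul_cancel_left]
    exact huv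
  · intro u v
    refine ⟨_, ⟨v * u⁻¹, rfl⟩, ?_⟩
    rw [MulAction.toPermHom_apply, MulAction.toPerm_apply, smul_eq_mul, inv_mul_cancel_right]
  · rintro σ ⟨g, rfl⟩ u v _ hu _
    rw [MulAction.toPermHom_apply, MulAction.toPerm_apply, smul_eq_mul] at hu
    have : g = 1 := by simpa using hu
    rw [this, map_one]

end Pool.Agent.Results.MP_781dd6_co.ArcSemiregularGroups
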