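import Pool.Agent.Q253.OD.Uni

/-!
# Oriented cycle double covers of graphs with a small matching number or small covers

Let every edge of a finite simple graph be in exactly one of finitely many subgraphs without cut
edges, each of which has no nine disjoint edges, or at most nine vertices that meet all edges, or at
most five vertices that meet all paths with three vertices.  Then a list of directed cycles of length
at least 3 traverses every edge exactly once in each direction.

Oriented double covers are written as flows with values `e_i - e_j`.  In each of the three classes
(closed under deletion and contraction) a minimal counterexample has degrees at least three, no cut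
vertex, only trivial 3-edge-cuts and girth at least five, with arbitrary degrees.  Circuits of length
three are deleted or contracted; for a circuit of length four two opposite edges are deleted and the
colours on the other two are changed along paths.  Counting pairs of common neighbours (and the
Tutte-Berge theorem) leaves at most sixteen vertices of odd degree, or a bipartite graph with a
nowhere-zero 4-flow; the graphs with at most sixteen vertices of odd degree have a nowhere-zero
4-flow or contract to the Petersen graph (starting library `TH362.TF`).
-/

set_option autoImplicit false

namespace Pool.Agent.Results.MP_781dd6_co.MatchingsAndCovers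

open Finset Pool.Agent.Q253.OD

/-- no edge of `G` is a cut edge: the ends of every edge stay connected after its deletion -/
def NoCutEdge {V : Type} (G : SimpleGraph V) : Prop :=
  ∀ u v : V, G.Adj u v → (G.deleteEdges {s(u, v)}).Reachable u v

/-- no nine edges of `G` are pairwise disjoint -/
def MatchingNumberLeEight {V : Type} (G : SimpleGraph V) : Prop :=
  ∀ M : Finset (Sym2 V), (∀ e ∈ M, e ∈ G.edgeSet) →
    (∀ e ∈ M, ∀ f ∈ M, e ≠ f → ∀ v, v ∈ e → v ∉ f) → M.card ≤ 8

/-- at most nine vertices meet all edges of `G` -/
def VertexCoverLeNine {V : Type} (G : SimpleGraph V) : Prop :=
  ∃ X : Finset V, X.card ≤ 9 ∧ ∀ u v, G.Adj u v → u ∈ X ∨ v ∈ X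

/-- at most five vertices meet all paths of `G` with three vertices: outside of them every vertex has
at most one neighbour -/
def ThreePathCoverLeFive {V : Type} (G : SimpleGraph V) : Prop :=
  ∃ X : Finset V, X.card ≤ 5 ∧ ∀ a b c, a ∉ X → b ∉ X → c ∉ X → G.Adj a b → G.Adj b c → a = c

open scoped Classical in
/-- **Theorem.** Let `G` be a finite simple graph with finitely many subgraphs `H i` such that every
edge of `G` is in exactly one of them.  If no `H i` has a cut edge and every `H i` has no nine
disjoint edges, or at most nine vertices meeting all edges, or at most five vertices meeting all
paths with three vertices, then some list of directed cycles of `G` (of length at least 3) traverses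
every edge exactly once in each direction. -/
theorem result (V : Type) [Fintype V] (G : SimpleGraph V) (ι : Type) [Fintype ι]
    (H : ι → SimpleGraph V) (hG : ∀ i, H i ≤ G) (hU : ∀ u v, G.Adj u v → ∃! i, (H i).Adj u v)
    (hB : ∀ i, NoCutEdge (H i))
    (hC : ∀ i, MatchingNumberLeEight (H i) ∨ VertexCoverLeNine (H i) ∨
      ThreePathCoverLeFive (H i)) :
    ∃ C : List (Σ v : V, G.Walk v v), (∀ c ∈ C, c.2.IsCycle) ∧
      ∀ u v : V, G.Adj u v →
        (C.map (fun c => (c.2.darts.filter (fun d => decide (d.toProd = (u, v)))).length)).sum = 1 := by
  refine oc_union G H (fun i u v h => hG i h) hU fun i => ?_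
  rcases hC i with h | h | h
  · exact oc_of_mt (H i) (hB i) h
  · exact oc_of_cov (H i) (hB i) h
  · exact oc_of_p3 (H i) (hB i) h

end Pool.Agent.Results.MP_781dd6_co.MatchingsAndCovers
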