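import Pool.Agent.Q253.OR.Part

/-!
# Oriented cycle double covers: reduction to nearly bipartite cubic graphs of large girth

For all `g` and `ε > 0`: every finite simple graph without cut edges has an oriented cycle double
cover if and only if every 3-edge-connected cubic simple graph has one which is not 3-edge-colourable,
has no cycle with fewer than `g` edges and becomes bipartite when at most `ε |V|` edges, any two at
distance at least `g`, are deleted.

An oriented double cover is a flow with values `e_i - e_j` (proved here in both directions for
directed cycles of simple graphs).  The vertices are replaced by circuits and 2-edge-cuts are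
destroyed (`Pool.Agent.Q234.HF` of helper234, here for all symmetric sets of values); the vertices of
the 3-edge-connected cubic graph are replaced by bipartite cubic graphs of large girth minus a vertex
(`Pool.Agent.Q295.RG` of helper295), which changes the existence of flows with values in no symmetric
set.
-/

set_option autoImplicit false

namespace Pool.Agent.Results.MP_781dd6_co.NearlyBipartiteCubic

open Pool.Agent.Q253.OR

/-- no edge of `G` is a cut edge: the ends of every edge stay connected after its deletion -/
def NoCutEdge {V : Type} (G : SimpleGraph V) : Prop :=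
  ∀ u v : V, G.Adj u v → (G.deleteEdges {s(u, v)}).Reachable u v

open scoped Classical in
/-- some list of directed cycles of `G`, of length at least 3, traverses every edge of `G` exactly
once in each direction -/
def HasOrientedDoubleCover {V : Type} (G : SimpleGraph V) : Prop :=
  ∃ C : List (Σ v : V, G.Walk v v), (∀ c ∈ C, c.2.IsCycle) ∧
    ∀ u v : V, G.Adj u v →
      (C.map (fun c => (c.2.darts.filter (fun d => decide (d.toProd = (u, v)))).length)).sum = 1

/-- 3-edge-connected cubic graphs without cycles of length less than `g` and without 3-edge-colouring
which become bipartite when at most `ε |V|` edges are deleted, any two of them at distance at least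
`g` -/
structure Nice (g : ℕ) (ε : ℝ) {V : Type} (H : SimpleGraph V) : Prop where
  /-- every vertex has three neighbours -/
  cubic : ∀ v, (H.neighborSet v).ncard = 3
  /-- at least three edges leave every vertex set other than `∅` and `V` -/
  conn : ∀ X : Set V, X.Nonempty → Xᶜ.Nonempty →
    3 ≤ {e : Sym2 V | ∃ x y, x ∈ X ∧ y ∉ X ∧ H.Adj x y ∧ e = s(x, y)}.ncard
  /-- the cycles have at least `g` edges -/
  girth : ∀ (v : V) (c : H.Walk v v), c.IsCycle → g ≤ c.length
  /-- deleting the edges in `F` leaves a bipartite graph, with the vertices in `B` on one side -/
  nearly : ∃ F : Set (Sym2 V), F ⊆ H.edgeSet ∧ (F.ncard : ℝ) ≤ ε * Nat.card V ∧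
    (∀ e ∈ F, ∀ f ∈ F, e ≠ f → ∀ x ∈ e, ∀ y ∈ f, ∀ p : H.Walk x y, g ≤ p.length) ∧
    ∃ B : Set V, ∀ u v, H.Adj u v → s(u, v) ∉ F → (u ∈ B ↔ v ∉ B)
  /-- there is no colouring of the edges with three colours such that different edges with a common
  end have different colours -/
  snark : ¬ ∃ c : Sym2 V → Fin 3, ∀ e ∈ H.edgeSet, ∀ f ∈ H.edgeSet, e ≠ f →
    (∃ v, v ∈ e ∧ v ∈ f) → c e ≠ c f

/-- **Theorem.** Every finite simple graph without cut edges has an oriented cycle double cover if
and only if every finite graph in `Nice g ε` has one. -/
theorem result (g : ℕ) (ε : ℝ) (hε : 0 < ε) :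
    (∀ (V : Type) [Fintype V] (G : SimpleGraph V), NoCutEdge G → HasOrientedDoubleCover G) ↔
      ∀ (V : Type) [Fintype V] (H : SimpleGraph V), Nice g ε H → HasOrientedDoubleCover H := by
  constructor
  · intro h V _ H hH
    exact h V H (nocut_of H hH.conn)
  · intro h V _ G hG
    exact final g ε hε (fun V _ H h1 h2 h3 h4 h5 => h V H ⟨h1, h2, h3, h4, h5⟩) V G hG

end Pool.Agent.Results.MP_781dd6_co.NearlyBipartiteCubic
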