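import Pool.Agent.TH505.OCDC.Cover

/-!
# Almost oriented cycle double covers

Every finite simple graph without cut edges has a list of directed cycles that traverses every arc
of `D(G)` once or twice, at most one quarter of the arcs twice, and never both arcs of an edge
twice.

Take a double cover by eight even subgraphs (starting library) and orient it at random.  The sum of
the eight flows is twice a flow with values `0, 1, -1`, whose reversed cycles repair the arcs that
are missed.
-/

set_option autoImplicit false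

namespace Pool.Agent.Results.MP_781dd6_co.OnceOrTwice

open Finset Pool.Agent.TH505.OCDC
open Pool.Agent.H126R2.CDC (T3)

open scoped Classical in
/-- The number of traversals of the arc `(u, v)` by the directed cycles of the list `C`. -/
noncomputable def trav {V : Type} {G : SimpleGraph V} (C : List (Σ v : V, G.Walk v v)) (u v : V) :
    ℕ :=
  (C.map (fun c => (c.2.darts.filter (fun d => decide (d.toProd = (u, v)))).length)).sum

lemma trav_eq {V : Type} {G : SimpleGraph V} (C : List (Σ v : V, G.Walk v v)) (u v : V) :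
    trav C u v = tot C u v := rfl

/-- the sign of a boolean -/
def sg (b : Bool) : ℤ := if b then 1 else -1

lemma sg_cases (b : Bool) : sg b = 1 ∨ sg b = -1 := by cases b <;> simp [sg]

/-- the boolean with the sign of `x` -/
def bs (x : ℤ) : Bool := decide (x = 1)

lemma sg_mul_eq_one {b : Bool} {x : ℤ} (hx : x = 1 ∨ x = -1) : sg b * x = 1 ↔ b = bs x := by
  rcases hx with rfl | rfl <;> cases b <;> simp [sg, bs]

lemma card_signs {T : Type} [Fintype T] [DecidableEq T] {a b : T} (hab : a ≠ b) (s t : Bool) :
    4 * (univ.filter (fun e : T → Bool => e a = s ∧ e b = t)).card = Fintype.card (T → Bool) := by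
  have h1 : univ.filter (fun e : T → Bool => e a = s ∧ e b = t) =
      Fintype.piFinset (fun c => if c = a then {s} else if c = b then {t} else univ) := by
    ext e
    simp only [mem_filter, mem_univ, true_and, Fintype.mem_piFinset]
    constructor
    · rintro ⟨h1, h2⟩ c
      by_cases hca : c = a
      · subst hca; simp [h1]
      · by_cases hcb : c = b
        · subst hcb; simp [hca, h2]
        · simp [hca, hcb]
    · intro h
      refine ⟨by simpa using h a, ?_⟩
      have := h b
      rw [if_neg hab.symm, if_pos rfl] at this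
      simpa using this
  rw [h1, Fintype.card_piFinset]
  have h2 : ∀ c : T, (if c = a then ({s} : Finset Bool) else if c = b then {t} else univ).card =
      if c ∈ ({a, b} : Finset T) then 1 else 2 := by
    intro c
    by_cases hca : c = a
    · subst hca; simp
    · by_cases hcb : c = b
      · subst hcb; simp [hca]
      · simp [hca, hcb]
  rw [Finset.prod_congr rfl (fun c _ => h2 c)]
  have h4 : (∏ c : T, (if c ∈ ({a, b} : Finset T) then 1 else 2 : ℕ)) * 4 = ∏ c : T, 2 := by
    have h5 : ∏ c : T, (if c ∈ ({a, b} : Finset T) then 2 else 1 : ℕ) = 4 := by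
      rw [Finset.prod_ite_mem, Finset.univ_inter, Finset.prod_const, Finset.card_pair hab]
      norm_num
    rw [← h5, ← Finset.prod_mul_distrib]
    refine Finset.prod_congr rfl fun c _ => ?_
    split_ifs <;> rfl
  rw [mul_comm, h4]
  simp

section core

variable {V : Type} [Fintype V] {G : SimpleGraph V} {g : T3 → V → V → ℤ}

/-- two of the eight signed flows have the value one on the arc -/
def Dbl (g : T3 → V → V → ℤ) (e : T3 → Bool) (u v : V) : Prop :=
  ∃ a b : T3, a ≠ b ∧ sg (e a) * g a u v = 1 ∧ sg (e b) * g b u v = 1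

omit [Fintype V] in
lemma dbl_iff {u v : V} {a b : T3} (hab : a ≠ b) (ha : g a u v = 1 ∨ g a u v = -1)
    (hb : g b u v = 1 ∨ g b u v = -1) (hc : ∀ c, c ≠ a → c ≠ b → g c u v = 0) (e : T3 → Bool) :
    Dbl g e u v ↔ e a = bs (g a u v) ∧ e b = bs (g b u v) := by
  constructor
  · rintro ⟨x, y, hxy, hx, hy⟩
    have hx' : x = a ∨ x = b := by
      by_contra hcon
      push Not at hcon
      rw [hc x hcon.1 hcon.2] at hx
      simp at hx
    have hy' : y = a ∨ y = b := by
      by_contra hcon
      push Not at hcon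
      rw [hc y hcon.1 hcon.2] at hy
      simp at hy
    rcases hx' with rfl | rfl <;> rcases hy' with rfl | rfl
    · exact absurd rfl hxy
    · exact ⟨(sg_mul_eq_one ha).1 hx, (sg_mul_eq_one hb).1 hy⟩
    · exact ⟨(sg_mul_eq_one ha).1 hy, (sg_mul_eq_one hb).1 hx⟩
    · exact absurd rfl hxy
  · rintro ⟨h1, h2⟩
    exact ⟨a, b, hab, (sg_mul_eq_one ha).2 h1, (sg_mul_eq_one hb).2 h2⟩

open scoped Classical in
lemma exists_signs (h3 : ∀ c u v, ¬ G.Adj u v → g c u v = 0)
    (h4 : ∀ u v, G.Adj u v → ∃ a b : T3, a ≠ b ∧ (g a u v = 1 ∨ g a u v = -1) ∧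
      (g b u v = 1 ∨ g b u v = -1) ∧ ∀ c, c ≠ a → c ≠ b → g c u v = 0) (w : V → V → ℝ) :
    ∃ e : T3 → Bool, 4 * ∑ u, ∑ v, (if Dbl g e u v then w u v else 0) ≤
      ∑ u, ∑ v, if G.Adj u v then w u v else 0 := by
  have hcard : ∀ u v, (4 : ℝ) * ∑ e : T3 → Bool, (if Dbl g e u v then w u v else 0) =
      ∑ _e : T3 → Bool, (if G.Adj u v then w u v else 0) := by
    intro u v
    by_cases h : G.Adj u v
    · obtain ⟨a, b, hab, ha, hb, hc⟩ := h4 u v h
      have h5 := card_signs hab (bs (g a u v)) (bs (g b u v))
      have h6 : univ.filter (fun e : T3 → Bool => Dbl g e u v) =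
          univ.filter (fun e : T3 → Bool => e a = bs (g a u v) ∧ e b = bs (g b u v)) := by
        ext e
        simp only [mem_filter, mem_univ, true_and]
        exact dbl_iff hab ha hb hc e
      rw [← Finset.sum_filter, Finset.sum_const, h6, if_pos h, Finset.sum_const, Finset.card_univ,
        nsmul_eq_mul, nsmul_eq_mul, ← mul_assoc]
      congr 1
      exact_mod_cast h5
    · have h6 : ∀ e : T3 → Bool, ¬ Dbl g e u v := by
        rintro e ⟨a, b, -, ha, -⟩
        rw [h3 a u v h] at ha
        simp at ha
      simp [h6, h]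
  have hsum : ∑ e : T3 → Bool, (4 * ∑ u, ∑ v, (if Dbl g e u v then w u v else 0)) =
      ∑ _e : T3 → Bool, ∑ u, ∑ v, (if G.Adj u v then w u v else 0) := by
    rw [← Finset.mul_sum, Finset.sum_comm, Finset.sum_comm (s := (univ : Finset (T3 → Bool))),
      Finset.mul_sum]
    refine Finset.sum_congr rfl fun u _ => ?_
    rw [Finset.sum_comm, Finset.sum_comm (s := (univ : Finset (T3 → Bool))), Finset.mul_sum]
    exact Finset.sum_congr rfl fun v _ => hcard u v
  obtain ⟨e, -, he⟩ := Finset.exists_le_of_sum_le (s := (univ : Finset (T3 → Bool)))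
    ⟨fun _ => true, mem_univ _⟩ hsum.le
  exact ⟨e, he⟩

end core

open scoped Classical in
/-- Let `G` be a finite simple graph without cut edges and `w` a real weighting of its arcs. There
are lists `C`, `R` of directed cycles (each of length at least three) such that `C` traverses every
edge exactly twice in total, `R` traverses exactly the arcs that `C` misses, each once, hence
`C ++ R` traverses every arc once or twice, and never both arcs of an edge twice; and the weight of
the arcs traversed twice is at most one quarter of the weight of all arcs. -/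
theorem result (V : Type) [Fintype V] (G : SimpleGraph V)
    (hG : ∀ u v : V, G.Adj u v → (G.deleteEdges {s(u, v)}).Reachable u v) (w : V → V → ℝ) :
    ∃ C R : List (Σ v : V, G.Walk v v), (∀ c ∈ C, c.2.IsCycle) ∧ (∀ c ∈ R, c.2.IsCycle) ∧
      (∀ u v, G.Adj u v → trav C u v + trav C v u = 2) ∧
      (∀ u v, G.Adj u v → trav R u v = if trav C u v = 0 then 1 else 0) ∧
      (∀ u v, G.Adj u v → trav (C ++ R) u v = 1 ∨
        trav (C ++ R) u v = 2 ∧ trav (C ++ R) v u = 1) ∧
      4 * ∑ u, ∑ v, (if G.Adj u v ∧ trav (C ++ R) u v = 2 then w u v else 0) ≤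
        ∑ u, ∑ v, (if G.Adj u v then w u v else 0) := by
  obtain ⟨g, h1, h2, h3, h4⟩ := exists_flows G hG
  obtain ⟨e, he⟩ := exists_signs h3 h4 w
  have hval : ∀ c u v, sg (e c) * g c u v = 0 ∨ sg (e c) * g c u v = 1 ∨
      sg (e c) * g c u v = -1 := by
    intro c u v
    by_cases h : G.Adj u v
    · obtain ⟨a, b, _, ha, hb, hc⟩ := h4 u v h
      by_cases hca : c = a
      · subst hca
        rcases sg_cases (e c) with h5 | h5 <;> rcases ha with h6 | h6 <;> rw [h5, h6] <;> simp
      · by_cases hcb : c = b
        · subst hcb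
          rcases sg_cases (e c) with h5 | h5 <;> rcases hb with h6 | h6 <;> rw [h5, h6] <;> simp
        · rw [hc c hca hcb]; simp
    · rw [h3 c u v h]; simp
  obtain ⟨C, hC1, hC2⟩ := flows_decomp (G := G) ((univ : Finset T3).toList)
    (fun c u v => sg (e c) * g c u v) (fun c u v => by rw [h1 c u v]; ring) hval
    (by
      intro i u v hne
      by_contra hadj
      exact hne (by rw [h3 i u v hadj, mul_zero]))
    (by
      intro c u
      rw [← Finset.mul_sum, h2 c u, mul_zero])
  -- the local picture
  have hloc : ∀ u v, G.Adj u v → ∃ a b : T3, a ≠ b ∧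
      (sg (e a) * g a u v = 1 ∨ sg (e a) * g a u v = -1) ∧
      (sg (e b) * g b u v = 1 ∨ sg (e b) * g b u v = -1) ∧
      ∀ c, c ≠ a → c ≠ b → sg (e c) * g c u v = 0 := by
    intro u v h
    obtain ⟨a, b, hab, ha, hb, hc⟩ := h4 u v h
    refine ⟨a, b, hab, ?_, ?_, fun c hca hcb => by rw [hc c hca hcb, mul_zero]⟩
    · rcases sg_cases (e a) with h5 | h5 <;> rcases ha with h6 | h6 <;> rw [h5, h6] <;> simp
    · rcases sg_cases (e b) with h5 | h5 <;> rcases hb with h6 | h6 <;> rw [h5, h6] <;> simp
  have hsumab : ∀ {M : Type} [AddCommMonoid M] (f : T3 → M) (a b : T3), a ≠ b →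
      (∀ c, c ≠ a → c ≠ b → f c = 0) → ∑ c, f c = f a + f b := by
    intro M _ f a b hab hc
    rw [← Finset.sum_pair hab]
    refine (Finset.sum_subset (subset_univ _) ?_).symm
    intro c _ hcn
    rw [mem_insert, mem_singleton, not_or] at hcn
    exact hc c hcn.1 hcn.2
  -- half of the sum of the flows
  have hbeta : ∀ u v, ∃ x : ℤ, (x = 0 ∨ x = 1 ∨ x = -1) ∧
      ∑ c, sg (e c) * g c u v = 2 * x := by
    intro u v
    by_cases h : G.Adj u v
    · obtain ⟨a, b, hab, ha, hb, hc⟩ := hloc u v h
      rw [hsumab (fun c => sg (e c) * g c u v) a b hab hc]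
      rcases ha with ha | ha <;> rcases hb with hb | hb <;> simp only [ha, hb]
      · exact ⟨1, by simp, by norm_num⟩
      · exact ⟨0, by simp, by norm_num⟩
      · exact ⟨0, by simp, by norm_num⟩
      · exact ⟨-1, by simp, by norm_num⟩
    · refine ⟨0, by simp, ?_⟩
      rw [mul_zero]
      exact Finset.sum_eq_zero fun c _ => by rw [h3 c u v h, mul_zero]
  choose β hβ1 hβ2 using hbeta
  have hanti : ∀ u v, β v u = - β u v := by
    intro u v
    have h5 : ∑ c, sg (e c) * g c v u = - ∑ c, sg (e c) * g c u v := by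
      rw [← Finset.sum_neg_distrib]
      exact Finset.sum_congr rfl fun c _ => by rw [h1 c u v]; ring
    rw [hβ2 v u, hβ2 u v] at h5
    linarith
  obtain ⟨R, hR1, hR2⟩ := flow_decomp (G := G) (fun u v => - β u v)
    (fun u v => by rw [hanti u v])
    (fun u v => by
      rcases hβ1 u v with h | h | h <;> rw [h] <;> simp)
    (by
      intro u v hne
      by_contra hadj
      apply hne
      have h5 := hβ2 u v
      rw [Finset.sum_eq_zero (fun c _ => by rw [h3 c u v hadj, mul_zero])] at h5
      have h6 : β u v = 0 := by linarith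
      rw [h6, neg_zero])
    (by
      intro u
      rw [Finset.sum_neg_distrib]
      have h5 : 2 * ∑ v, β u v = 0 := by
        rw [Finset.mul_sum, ← Finset.sum_congr rfl (fun v _ => hβ2 u v), Finset.sum_comm]
        refine Finset.sum_eq_zero fun c _ => ?_
        rw [← Finset.mul_sum, h2 c u, mul_zero]
      have h6 : ∑ v, β u v = 0 := by linarith
      rw [h6, neg_zero])
  -- values
  have hCv : ∀ u v, G.Adj u v → ∃ x y : ℤ, (x = 1 ∨ x = -1) ∧ (y = 1 ∨ y = -1) ∧
      tot C u v = ind (x = 1) + ind (y = 1) ∧ tot C v u = ind (x = -1) + ind (y = -1) ∧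
      2 * β u v = x + y ∧ (Dbl g e u v ↔ x = 1 ∧ y = 1) := by
    intro u v h
    obtain ⟨a, b, hab, ha, hb, hc⟩ := hloc u v h
    refine ⟨sg (e a) * g a u v, sg (e b) * g b u v, ha, hb, ?_, ?_, ?_, ?_⟩
    · rw [hC2 u v, Finset.sum_map_toList]
      exact hsumab (fun c => ind (sg (e c) * g c u v = 1)) a b hab
        (fun c hca hcb => ind_neg (by rw [hc c hca hcb]; norm_num))
    · rw [hC2 v u, Finset.sum_map_toList]
      have h5 : ∀ c, ind (sg (e c) * g c v u = 1) = ind (sg (e c) * g c u v = -1) := by
        intro c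
        congr 1
        rw [h1 c u v, eq_iff_iff]
        constructor <;> intro h6 <;> linarith
      rw [Finset.sum_congr rfl (fun c _ => h5 c)]
      exact hsumab (fun c => ind (sg (e c) * g c u v = -1)) a b hab
        (fun c hca hcb => ind_neg (by rw [hc c hca hcb]; norm_num))
    · rw [← hβ2 u v]
      exact hsumab (fun c => sg (e c) * g c u v) a b hab hc
    · constructor
      · rintro ⟨x, y, hxy, hx, hy⟩
        have hx' : x = a ∨ x = b := by
          by_contra hcon
          push Not at hcon
          rw [hc x hcon.1 hcon.2] at hx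
          simp at hx
        have hy' : y = a ∨ y = b := by
          by_contra hcon
          push Not at hcon
          rw [hc y hcon.1 hcon.2] at hy
          simp at hy
        rcases hx' with rfl | rfl <;> rcases hy' with rfl | rfl
        · exact absurd rfl hxy
        · exact ⟨hx, hy⟩
        · exact ⟨hy, hx⟩
        · exact absurd rfl hxy
      · rintro ⟨h5, h6⟩
        exact ⟨a, b, hab, h5, h6⟩
  have key : ∀ u v, G.Adj u v →
      (tot C u v = 2 ∧ tot C v u = 0 ∧ tot R u v = 0 ∧ tot R v u = 1 ∧ Dbl g e u v) ∨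
      (tot C u v = 1 ∧ tot C v u = 1 ∧ tot R u v = 0 ∧ tot R v u = 0 ∧ ¬ Dbl g e u v) ∨
      (tot C u v = 0 ∧ tot C v u = 2 ∧ tot R u v = 1 ∧ tot R v u = 0 ∧ ¬ Dbl g e u v) := by
    intro u v h
    obtain ⟨x, y, hx, hy, e1, e2, e3, e4⟩ := hCv u v h
    rw [e1, e2, hR2 u v, hR2 v u, e4]
    have h5 : β v u = -β u v := hanti u v
    rcases hx with rfl | rfl <;> rcases hy with rfl | rfl
    · left
      have h6 : β u v = 1 := by linarith
      rw [h5, h6]
      refine ⟨?_, ?_, ?_, ?_, by simp⟩ <;> norm_num [ind]
    · right; left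
      have h6 : β u v = 0 := by linarith
      rw [h5, h6]
      refine ⟨?_, ?_, ?_, ?_, by norm_num⟩ <;> norm_num [ind]
    · right; left
      have h6 : β u v = 0 := by linarith
      rw [h5, h6]
      refine ⟨?_, ?_, ?_, ?_, by norm_num⟩ <;> norm_num [ind]
    · right; right
      have h6 : β u v = -1 := by linarith
      rw [h5, h6]
      refine ⟨?_, ?_, ?_, ?_, by norm_num⟩ <;> norm_num [ind]
  refine ⟨C, R, hC1, hR1, ?_, ?_, ?_, ?_⟩
  · intro u v h
    rw [trav_eq, trav_eq]
    rcases key u v h with h5 | h5 | h5 <;> omega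
  · intro u v h
    rw [trav_eq, trav_eq]
    rcases key u v h with h5 | h5 | h5 <;> simp [h5.1, h5.2.2.1]
  · intro u v h
    rw [trav_eq, trav_eq, tot_append, tot_append]
    rcases key u v h with h5 | h5 | h5 <;> omega
  · refine le_trans (le_of_eq ?_) he
    congr 1
    refine Finset.sum_congr rfl fun u _ => Finset.sum_congr rfl fun v _ => ?_
    by_cases h : G.Adj u v
    · rw [trav_eq, tot_append]
      rcases key u v h with ⟨a1, a2, a3, a4, a5⟩ | ⟨a1, a2, a3, a4, a5⟩ | ⟨a1, a2, a3, a4, a5⟩
      · rw [a1, a3, if_pos ⟨h, rfl⟩, if_pos a5]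
      · rw [a1, a3, if_neg (by omega), if_neg a5]
      · rw [a1, a3, if_neg (by omega), if_neg a5]
    · have h6 : ¬ Dbl g e u v := by
        rintro ⟨a, b, -, ha, -⟩
        rw [h3 a u v h] at ha
        simp at ha
      rw [if_neg (fun h7 => h h7.1), if_neg h6]

end Pool.Agent.Results.MP_781dd6_co.OnceOrTwice
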